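import Pool.Agent.H95.BConv
set_option autoImplicit false
open MeasureTheory Filter Topology Pool.Agent.H95.BConv

theorem Pool.Agent.Results.MP_ddcbd8_an.Q1.result (β : ℝ) (h1 : 1 < β) (_h2 : β < 2) (ν : Measure ℝ)
    (h : IsBC β ν) (hs : ν ⟂ₘ volume) : ∀ᵐ x : ℝ, Tendsto (fun n => f β n x) atTop (𝓝 0) :=
  main h1 h hs
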